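import Pool.Agent.L0h41.CL.A

set_option autoImplicit false

/-!
# The central limit theorem for sums of functions of residues: comparison with the model
-/

namespace Pool.Agent.L0h41.CL

open Finset
open Pool.Agent.N368.TS

variable {ι : Type} [Fintype ι] [DecidableEq ι] {Ω : Type}

/-- equidistribution of the vectors `v n`, `n ∈ S`, in the residue classes -/
def Eqd (S : Finset Ω) (v : Ω → ι → ℤ) (R η : ℝ) : Prop :=
  ∀ M : ℕ, 1 ≤ M → (M : ℝ) ≤ R → ∀ F : (ι → ℤ) → ℝ, PerV F M → (∀ n, |F n| ≤ 1) → av M F = 0 →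
    |∑ n ∈ S, F (v n)| ≤ M * η * S.card

/-- the mean of the product over a tuple, with a weight -/
theorem tuple_av' (P : Finset ℕ) (q : ℕ → ℕ) (φ : ℕ → (ι → ℤ) → ℝ) (Y W : ℕ) (G : (ι → ℤ) → ℝ)
    (hq : ∀ i ∈ P, 0 < q i ∧ q i ≤ Y) (hY : 1 ≤ Y) (hW : 1 ≤ W)
    (hcop : ∀ i ∈ P, ∀ j ∈ P, i ≠ j → Nat.Coprime (q i) (q j)) (hcW : ∀ i ∈ P, Nat.Coprime W (q i))
    (hper : ∀ i ∈ P, PerV (φ i) (q i)) (hG : PerV G W) (k : ℕ) (t : Fin k → ℕ) (ht : ∀ j, t j ∈ P) :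
    ∃ M : ℕ, 1 ≤ M ∧ M ≤ W * Y ^ k ∧ PerV (fun c => G c * ∏ j, φ (t j) c) M ∧
      av M (fun c => G c * ∏ j, φ (t j) c) = av W G * av (∏ i ∈ P, q i) (fun c => ∏ j, φ (t j) c) := by
  classical
  set I := univ.image t with hI
  have himg : I ⊆ P := by
    intro i hi
    rw [hI, mem_image] at hi
    obtain ⟨j, _, rfl⟩ := hi
    exact ht j
  set F : ℕ → (ι → ℤ) → ℝ := fun i n => φ i n ^ (univ.filter (fun j => t j = i)).card with hF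
  have he : ∀ n : ι → ℤ, ∏ j, φ (t j) n = ∏ i ∈ I, F i n := by
    intro n
    rw [hF, hI]
    exact prod_comp (fun i => φ i n) t
  have hout : ∀ i ∈ P, i ∉ I → F i = fun _ => 1 := by
    intro i _ hi
    funext n
    rw [hF]
    simp only
    have : univ.filter (fun j => t j = i) = ∅ := by
      rw [filter_eq_empty_iff]
      rintro j - rfl
      exact hi (mem_image_of_mem t (mem_univ j))
    rw [this, card_empty, pow_zero]
  have he2 : ∀ n : ι → ℤ, ∏ j, φ (t j) n = ∏ i ∈ P, F i n := by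
    intro n
    rw [he]
    refine prod_subset himg fun i hi1 hi2 => ?_
    rw [hout i hi1 hi2]
  have hFper : ∀ i ∈ P, PerV (F i) (q i) := by
    intro i hi c d hcd
    rw [hF]
    simp only
    rw [hper i hi c d hcd]
  obtain ⟨g1, g2⟩ := av_prod q F I (fun i hi => (hq i (himg hi)).1)
    (fun i hi j hj => hcop i (himg hi) j (himg hj)) (fun i hi => hFper i (himg hi))
  obtain ⟨g3, g4⟩ := av_prod q F P (fun i hi => (hq i hi).1) hcop hFper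
  have hpos : 0 < ∏ i ∈ I, q i := prod_pos fun i hi => (hq i (himg hi)).1
  have hc : Nat.Coprime W (∏ i ∈ I, q i) := Nat.Coprime.prod_right fun i hi => hcW i (himg hi)
  have e1 : (fun c : ι → ℤ => ∏ j, φ (t j) c) = fun c => ∏ i ∈ I, F i c := funext he
  have e2 : (fun c : ι → ℤ => ∏ j, φ (t j) c) = fun c => ∏ i ∈ P, F i c := funext he2
  have e0 : (fun c : ι → ℤ => G c * ∏ j, φ (t j) c) = fun c => G c * (fun c => ∏ i ∈ I, F i c) c := by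
    funext c
    simp only
    rw [he c]
  refine ⟨W * ∏ i ∈ I, q i, Nat.mul_pos hW hpos, ?_, ?_, ?_⟩
  · apply Nat.mul_le_mul_left
    have h5 : ∏ i ∈ I, q i ≤ Y ^ I.card := prod_le_pow_card _ _ _ fun i hi => (hq i (himg hi)).2
    have h6 : I.card ≤ k := by
      have := card_image_le (s := (univ : Finset (Fin k))) (f := t)
      rwa [card_univ, Fintype.card_fin] at this
    exact h5.trans (Nat.pow_le_pow_right hY h6)
  · rw [e0]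
    intro c d hcd
    have h1 := (hG.of_dvd (Dvd.intro _ rfl)) c d hcd
    have h2 := (g1.of_dvd (Dvd.intro_left W rfl)) c d hcd
    simp only at h2 ⊢
    rw [h1, h2]
  · rw [e0, av_mul hW hpos hc hG g1]
    congr 1
    rw [e2, g4, g2]
    refine prod_subset himg fun i hi1 hi2 => ?_
    rw [hout i hi1 hi2]
    exact av_one (hq i hi1).1

/-- **the moments, compared with the model** -/
theorem mom_cmp {S : Finset Ω} {v : Ω → ι → ℤ} {R η : ℝ} (hS : Eqd S v R η) (hη : 0 ≤ η) (P : Finset ℕ) (q : ℕ → ℕ)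
    (φ : ℕ → (ι → ℤ) → ℝ) (Y W : ℕ) (G : (ι → ℤ) → ℝ)
    (hq : ∀ i ∈ P, 0 < q i ∧ q i ≤ Y) (hY : 1 ≤ Y) (hW : 1 ≤ W)
    (hcop : ∀ i ∈ P, ∀ j ∈ P, i ≠ j → Nat.Coprime (q i) (q j)) (hcW : ∀ i ∈ P, Nat.Coprime W (q i))
    (hper : ∀ i ∈ P, PerV (φ i) (q i)) (hle : ∀ i n, |φ i n| ≤ 1) (hG : PerV G W) (hG1 : ∀ n, |G n| ≤ 1)
    (k : ℕ) (hR : (W : ℝ) * (Y : ℝ) ^ k ≤ R) :
    |∑ n ∈ S, G (v n) * (∑ i ∈ P, φ i (v n)) ^ k -
      S.card * (av W G * av (∏ i ∈ P, q i) (fun c => (∑ i ∈ P, φ i c) ^ k))| ≤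
      ((P.card : ℝ) * Y) ^ k * (2 * W * η * S.card) := by
  classical
  set T := Fintype.piFinset (fun _ : Fin k => P) with hT
  have hexp : ∀ n : ι → ℤ, (∑ i ∈ P, φ i n) ^ k = ∑ t ∈ T, ∏ j, φ (t j) n := by
    intro n
    have h1 := (prod_univ_sum (fun _ : Fin k => P) (fun _ i => φ i n)).symm
    rw [prod_const, card_univ, Fintype.card_fin] at h1
    exact h1.symm
  have hYr : (1 : ℝ) ≤ Y := by exact_mod_cast hY
  have hprod1 : ∀ (t : Fin k → ℕ) (n : ι → ℤ), |∏ j, φ (t j) n| ≤ 1 := by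
    intro t n
    rw [abs_prod]
    exact prod_le_one (fun _ _ => abs_nonneg _) fun j _ => hle _ _
  have hPpos : 0 < ∏ i ∈ P, q i := prod_pos fun i hi => (hq i hi).1
  obtain ⟨A, hA⟩ : ∃ A : (Fin k → ℕ) → ℝ, ∀ t, A t = av W G * av (∏ i ∈ P, q i) (fun c : ι → ℤ => ∏ j, φ (t j) c) :=
    ⟨_, fun _ => rfl⟩
  have hA1 : ∀ t, |A t| ≤ 1 := by
    intro t
    rw [hA, abs_mul]
    exact mul_le_one₀ (av_abs hW hG1) (abs_nonneg _) (av_abs hPpos (hprod1 t))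
  have hterm : ∀ t ∈ T, |∑ n ∈ S, (G (v n) * ∏ j, φ (t j) (v n) - A t)| ≤ (Y : ℝ) ^ k * (2 * W * η * S.card) := by
    intro t ht
    rw [hT, Fintype.mem_piFinset] at ht
    obtain ⟨M, hM1, hM2, hM3, hM4⟩ := tuple_av' P q φ Y W G hq hY hW hcop hcW hper hG k t ht
    have hM2' : (M : ℝ) ≤ (W : ℝ) * (Y : ℝ) ^ k := by exact_mod_cast hM2
    have h3 := hS M hM1 (hM2'.trans hR) (fun c => (1 / 2) * (G c * ∏ j, φ (t j) c - A t)) (by
      intro c d hcd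
      have := hM3 c d hcd
      simp only at this ⊢
      rw [this]) (by
      intro c
      rw [abs_mul, abs_of_pos (by norm_num : (0 : ℝ) < 1 / 2)]
      have h4 := abs_sub (G c * ∏ j, φ (t j) c) (A t)
      have h5 : |G c * ∏ j, φ (t j) c| ≤ 1 := by
        rw [abs_mul]
        exact mul_le_one₀ (hG1 c) (abs_nonneg _) (hprod1 t c)
      have h6 := hA1 t
      linarith) (by
      rw [av_smul, hA t, ← hM4, av_sub_av hM1, mul_zero])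
    have e1 : ∑ n ∈ S, (1 / 2 : ℝ) * (G (v n) * ∏ j, φ (t j) (v n) - A t) =
        (1 / 2) * ∑ n ∈ S, (G (v n) * ∏ j, φ (t j) (v n) - A t) := by
      rw [mul_sum]
    rw [e1, abs_mul, abs_of_pos (by norm_num : (0 : ℝ) < 1 / 2)] at h3
    have h7 : (M : ℝ) * η * S.card ≤ (W : ℝ) * (Y : ℝ) ^ k * η * S.card := by gcongr
    calc |∑ n ∈ S, (G (v n) * ∏ j, φ (t j) (v n) - A t)| ≤ 2 * (M * η * S.card) := by linarith
      _ ≤ 2 * ((W : ℝ) * (Y : ℝ) ^ k * η * S.card) := by linarith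
      _ = _ := by ring
  have hTc : (T.card : ℝ) = (P.card : ℝ) ^ k := by
    rw [hT, Fintype.card_piFinset]
    simp
  have hAs : ∑ t ∈ T, A t = av W G * av (∏ i ∈ P, q i) (fun c : ι → ℤ => (∑ i ∈ P, φ i c) ^ k) := by
    have e1 : (fun c : ι → ℤ => (∑ i ∈ P, φ i c) ^ k) = fun c => ∑ t ∈ T, ∏ j, φ (t j) c := funext hexp
    rw [e1, av_sum, mul_sum]
    exact sum_congr rfl fun t _ => hA t
  have e5 : ∑ n ∈ S, G (v n) * (∑ i ∈ P, φ i (v n)) ^ k -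
      S.card * (av W G * av (∏ i ∈ P, q i) (fun c => (∑ i ∈ P, φ i c) ^ k)) =
      ∑ t ∈ T, ∑ n ∈ S, (G (v n) * ∏ j, φ (t j) (v n) - A t) := by
    rw [← hAs, mul_sum]
    have e6 : ∑ n ∈ S, G (v n) * (∑ i ∈ P, φ i (v n)) ^ k = ∑ t ∈ T, ∑ n ∈ S, G (v n) * ∏ j, φ (t j) (v n) := by
      rw [sum_comm]
      refine sum_congr rfl fun n _ => ?_
      rw [hexp, mul_sum]
    rw [e6, ← sum_sub_distrib]
    refine sum_congr rfl fun t _ => ?_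
    rw [sum_sub_distrib, sum_const, nsmul_eq_mul]
  rw [e5]
  refine (abs_sum_le_sum_abs _ _).trans ((sum_le_sum hterm).trans (le_of_eq ?_))
  rw [sum_const, nsmul_eq_mul, hTc, mul_pow (P.card : ℝ) (Y : ℝ)]
  ring

/-- even moments in the model, with a parameter -/
theorem av_pow_le2 (P : Finset ℕ) (q : ℕ → ℕ) (φ : ℕ → (ι → ℤ) → ℝ)
    (hq : ∀ i ∈ P, 0 < q i) (hcop : ∀ i ∈ P, ∀ j ∈ P, i ≠ j → Nat.Coprime (q i) (q j))
    (hper : ∀ i ∈ P, PerV (φ i) (q i)) (hle : ∀ i n, |φ i n| ≤ 1) (hsum : ∀ i ∈ P, av (q i) (φ i) = 0)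
    (l : ℝ) (hl0 : 0 < l) (hl1 : l ≤ 1) (m : ℕ) :
    l ^ (2 * m) * av (∏ i ∈ P, q i) (fun t => (∑ i ∈ P, φ i t) ^ (2 * m)) ≤
      (2 * m).factorial * (2 * Real.exp (l ^ 2 * ∑ i ∈ P, av (q i) (fun t => φ i t ^ 2))) := by
  obtain ⟨V, hV⟩ : ∃ V, V = ∑ i ∈ P, av (q i) (fun t => φ i t ^ 2) := ⟨_, rfl⟩
  rw [← hV]
  have hexp : ∀ c : ℝ, |c| = l → av (∏ i ∈ P, q i) (fun t => Real.exp (c * ∑ i ∈ P, φ i t)) ≤ Real.exp (l ^ 2 * V) := by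
    intro c hc
    have e1 : (fun t : ι → ℤ => Real.exp (c * ∑ i ∈ P, φ i t)) = fun t => ∏ i ∈ P, Real.exp (c * φ i t) := by
      funext t
      rw [mul_sum, Real.exp_sum]
    rw [e1, (av_prod q (fun i t => Real.exp (c * φ i t)) P hq hcop (fun i hi c' d hcd => by
      simp only
      rw [hper i hi c' d hcd])).2]
    calc ∏ i ∈ P, av (q i) (fun t => Real.exp (c * φ i t)) ≤
          ∏ i ∈ P, Real.exp (c ^ 2 * av (q i) (fun t => φ i t ^ 2)) :=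
          prod_le_prod (fun i _ => av_nonneg fun t => (Real.exp_pos _).le) fun i hi =>
            av_exp (hq i hi) (hle i) (hsum i hi) (by rw [hc]; exact hl1)
      _ = Real.exp (c ^ 2 * ∑ i ∈ P, av (q i) (fun t => φ i t ^ 2)) := by rw [← Real.exp_sum, mul_sum]
      _ = Real.exp (l ^ 2 * V) := by
          have : c ^ 2 = l ^ 2 := by rw [← sq_abs c, hc]
          rw [this, ← hV]
  have h1 : av (∏ i ∈ P, q i) (fun t : ι → ℤ => (l * ∑ i ∈ P, φ i t) ^ (2 * m)) ≤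
      (2 * m).factorial * (Real.exp (l ^ 2 * V) + Real.exp (l ^ 2 * V)) := by
    calc _ ≤ av (∏ i ∈ P, q i) (fun t : ι → ℤ => ((2 * m).factorial : ℝ) *
            (Real.exp (l * ∑ i ∈ P, φ i t) + Real.exp ((-l) * ∑ i ∈ P, φ i t))) := av_mono fun t => by
            have h := pow_le_exp (l * ∑ i ∈ P, φ i t) m
            rwa [← neg_mul] at h
      _ = (2 * m).factorial * (av (∏ i ∈ P, q i) (fun t : ι → ℤ => Real.exp (l * ∑ i ∈ P, φ i t)) +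
            av (∏ i ∈ P, q i) (fun t : ι → ℤ => Real.exp ((-l) * ∑ i ∈ P, φ i t))) := by rw [av_smul, av_add]
      _ ≤ _ := by
          refine mul_le_mul_of_nonneg_left (add_le_add (hexp l (abs_of_pos hl0)) (hexp (-l) ?_)) (by positivity)
          rw [abs_neg, abs_of_pos hl0]
  have h2 : (fun t : ι → ℤ => (l * ∑ i ∈ P, φ i t) ^ (2 * m)) = fun t => l ^ (2 * m) * (∑ i ∈ P, φ i t) ^ (2 * m) :=
    funext fun t => mul_pow _ _ _
  rw [h2, av_smul] at h1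
  linarith

/-- Taylor's formula for a weighted sum of exponentials -/
lemma taylor_sum (S : Finset Ω) (g x : Ω → ℝ) (hg : ∀ n ∈ S, 0 ≤ g n) (θ : ℝ) (m : ℕ) :
    ‖∑ n ∈ S, (g n : ℂ) * Complex.exp (Complex.I * ((θ * x n : ℝ) : ℂ)) -
      ∑ k ∈ range (2 * m), (Complex.I * θ) ^ k / (k.factorial : ℂ) * ((∑ n ∈ S, g n * x n ^ k : ℝ) : ℂ)‖ ≤
      |θ| ^ (2 * m) / (2 * m).factorial * ∑ n ∈ S, g n * x n ^ (2 * m) := by
  have e1 : ∑ k ∈ range (2 * m), (Complex.I * θ) ^ k / (k.factorial : ℂ) * ((∑ n ∈ S, g n * x n ^ k : ℝ) : ℂ) =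
      ∑ n ∈ S, (g n : ℂ) * ∑ k ∈ range (2 * m), (Complex.I * ((θ * x n : ℝ) : ℂ)) ^ k / (k.factorial : ℂ) := by
    rw [show (∑ n ∈ S, (g n : ℂ) * ∑ k ∈ range (2 * m), (Complex.I * ((θ * x n : ℝ) : ℂ)) ^ k / (k.factorial : ℂ)) =
      ∑ n ∈ S, ∑ k ∈ range (2 * m), (g n : ℂ) * ((Complex.I * ((θ * x n : ℝ) : ℂ)) ^ k / (k.factorial : ℂ)) from
        sum_congr rfl fun n _ => mul_sum _ _ _, sum_comm]
    refine sum_congr rfl fun k _ => ?_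
    rw [Complex.ofReal_sum, mul_sum]
    refine sum_congr rfl fun n _ => ?_
    push_cast
    rw [mul_pow, mul_pow, mul_pow]
    ring
  rw [e1, ← sum_sub_distrib, mul_sum]
  refine (norm_sum_le _ _).trans (sum_le_sum fun n hn => ?_)
  rw [← mul_sub, norm_mul, Complex.norm_real, Real.norm_eq_abs, abs_of_nonneg (hg n hn)]
  have h2 := Pool.Agent.L0h54.GC.exp_taylor' (Complex.I * ((θ * x n : ℝ) : ℂ)) (by simp) (2 * m)
  have h3 : ‖Complex.I * ((θ * x n : ℝ) : ℂ)‖ ^ (2 * m) = |θ| ^ (2 * m) * x n ^ (2 * m) := by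
    rw [norm_mul, Complex.norm_I, one_mul, Complex.norm_real, Real.norm_eq_abs, abs_mul, mul_pow]
    congr 1
    exact (even_two_mul m).pow_abs _
  rw [h3] at h2
  calc g n * ‖Complex.exp (Complex.I * ((θ * x n : ℝ) : ℂ)) -
        ∑ k ∈ range (2 * m), (Complex.I * ((θ * x n : ℝ) : ℂ)) ^ k / (k.factorial : ℂ)‖ ≤
      g n * (|θ| ^ (2 * m) * x n ^ (2 * m) / (2 * m).factorial) := mul_le_mul_of_nonneg_left h2 (hg n hn)
    _ = _ := by ring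

/-- Taylor's formula in the model -/
lemma taylor_av {q : ℕ} (x : (ι → ℤ) → ℝ) (θ : ℝ) (m : ℕ) :
    ‖cav q (fun t => Complex.exp (Complex.I * ((θ * x t : ℝ) : ℂ))) -
      ∑ k ∈ range (2 * m), (Complex.I * θ) ^ k / (k.factorial : ℂ) * ((av q (fun t => x t ^ k) : ℝ) : ℂ)‖ ≤
      |θ| ^ (2 * m) / (2 * m).factorial * av q (fun t => x t ^ (2 * m)) := by
  have h := taylor_sum (bx ι q) (fun _ => 1) (fun t => x (fun i => (t i : ℤ))) (fun _ _ => zero_le_one) θ m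
  obtain ⟨d, hd⟩ : ∃ d : ℝ, d = (q : ℝ) ^ Fintype.card ι := ⟨_, rfl⟩
  have hd0 : 0 ≤ d := by rw [hd]; positivity
  have e1 : cav q (fun t => Complex.exp (Complex.I * ((θ * x t : ℝ) : ℂ))) -
      ∑ k ∈ range (2 * m), (Complex.I * θ) ^ k / (k.factorial : ℂ) * ((av q (fun t => x t ^ k) : ℝ) : ℂ) =
      (∑ n ∈ bx ι q, (((1 : ℝ)) : ℂ) * Complex.exp (Complex.I * ((θ * x (fun i => (n i : ℤ)) : ℝ) : ℂ)) -
      ∑ k ∈ range (2 * m), (Complex.I * θ) ^ k / (k.factorial : ℂ) *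
        ((∑ n ∈ bx ι q, 1 * x (fun i => (n i : ℤ)) ^ k : ℝ) : ℂ)) / (d : ℂ) := by
    rw [sub_div]
    congr 1
    · unfold cav
      rw [hd]
      push_cast
      congr 1
      apply sum_congr rfl
      intro n _
      rw [one_mul]
    · rw [sum_div]
      refine sum_congr rfl fun k _ => ?_
      unfold av
      rw [← hd]
      push_cast
      rw [mul_div_assoc]
      congr 2
      apply sum_congr rfl
      intro n _
      rw [one_mul]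
  rw [e1, norm_div, Complex.norm_real, Real.norm_eq_abs, abs_of_nonneg hd0]
  refine (div_le_div_of_nonneg_right h hd0).trans (le_of_eq ?_)
  unfold av
  rw [← hd, mul_div_assoc]
  congr 2
  apply sum_congr rfl
  intro n _
  rw [one_mul]

/-- **the characteristic function** -/
theorem cf_main {S : Finset Ω} {v : Ω → ι → ℤ} {R η : ℝ} (hS : Eqd S v R η) (hη : 0 ≤ η) (P : Finset ℕ) (q : ℕ → ℕ)
    (φ : ℕ → (ι → ℤ) → ℝ) (Y W : ℕ) (G : (ι → ℤ) → ℝ)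
    (hq : ∀ i ∈ P, 0 < q i ∧ q i ≤ Y) (hY : 1 ≤ Y) (hW : 1 ≤ W) (hP : 1 ≤ P.card)
    (hcop : ∀ i ∈ P, ∀ j ∈ P, i ≠ j → Nat.Coprime (q i) (q j)) (hcW : ∀ i ∈ P, Nat.Coprime W (q i))
    (hper : ∀ i ∈ P, PerV (φ i) (q i)) (hle : ∀ i n, |φ i n| ≤ 1) (hsum : ∀ i ∈ P, av (q i) (φ i) = 0)
    (hG : PerV G W) (hG0 : ∀ n, 0 ≤ G n) (hG1 : ∀ n, G n ≤ 1)
    (m : ℕ) (hR : (W : ℝ) * (Y : ℝ) ^ (2 * m) ≤ R) (θ l : ℝ) (hθ : |θ| ≤ 1) (hl0 : 0 < l) (hl1 : l ≤ 1) :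
    ‖∑ n ∈ S, (G (v n) : ℂ) * Complex.exp (Complex.I * ((θ * ∑ i ∈ P, φ i (v n) : ℝ) : ℂ)) -
      ((S.card * (av W G * Real.exp (-(θ ^ 2 / 2 * ∑ i ∈ P, av (q i) (fun t => φ i t ^ 2)))) : ℝ) : ℂ)‖ ≤
      S.card * (2 * W * η * ((2 * m + 1) * ((P.card : ℝ) * Y) ^ (2 * m)) +
        4 * ((|θ| / l) ^ (2 * m) * Real.exp (l ^ 2 * ∑ i ∈ P, av (q i) (fun t => φ i t ^ 2))) +
        |θ| ^ 3 * ∑ i ∈ P, av (q i) (fun t => φ i t ^ 2)) := by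
  obtain ⟨V, hV⟩ : ∃ V, V = ∑ i ∈ P, av (q i) (fun t => φ i t ^ 2) := ⟨_, rfl⟩
  obtain ⟨Q, hQ⟩ : ∃ Q, Q = ∏ i ∈ P, q i := ⟨_, rfl⟩
  obtain ⟨g, hg⟩ : ∃ g, g = av W G := ⟨_, rfl⟩
  obtain ⟨s, hs⟩ : ∃ s : ℝ, s = S.card := ⟨_, rfl⟩
  obtain ⟨B, hB⟩ : ∃ B : ℝ, B = (P.card : ℝ) * Y := ⟨_, rfl⟩
  have hs0 : 0 ≤ s := by rw [hs]; positivity
  have hg0 : 0 ≤ g := by rw [hg]; exact av_nonneg hG0
  have hg1 : g ≤ 1 := by
    rw [hg, ← av_one (ι := ι) hW]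
    exact av_mono hG1
  have hYr : (1 : ℝ) ≤ Y := by exact_mod_cast hY
  have hB1 : 1 ≤ B := by
    rw [hB]
    have : (1 : ℝ) ≤ P.card := by exact_mod_cast hP
    nlinarith
  have hGa : ∀ n, |G n| ≤ 1 := fun n => by rw [abs_of_nonneg (hG0 n)]; exact hG1 n
  obtain ⟨E, hE⟩ : ∃ E : ℝ, E = 2 * W * η * s := ⟨_, rfl⟩
  have hE0 : 0 ≤ E := by rw [hE]; positivity
  have hQpos : 0 < Q := by rw [hQ]; exact prod_pos fun i hi => (hq i hi).1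
  -- the moments
  have hmom : ∀ k ≤ 2 * m, |∑ n ∈ S, G (v n) * (∑ i ∈ P, φ i (v n)) ^ k -
      s * (g * av Q (fun c => (∑ i ∈ P, φ i c) ^ k))| ≤ B ^ (2 * m) * E := by
    intro k hk
    have h1 := mom_cmp hS hη P q φ Y W G hq hY hW hcop hcW hper hle hG hGa k (by
      refine le_trans ?_ hR
      exact mul_le_mul_of_nonneg_left (pow_le_pow_right₀ hYr hk) (Nat.cast_nonneg _))
    rw [← hs, ← hg, ← hQ, ← hB, ← hE] at h1
    exact h1.trans (mul_le_mul_of_nonneg_right (pow_le_pow_right₀ hB1 hk) hE0)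
  obtain ⟨A2, hA2⟩ : ∃ A2, A2 = av Q (fun t => (∑ i ∈ P, φ i t) ^ (2 * m)) := ⟨_, rfl⟩
  have hA0 : 0 ≤ A2 := by rw [hA2]; exact av_nonneg fun t => (even_two_mul m).pow_nonneg _
  obtain ⟨f, hf⟩ : ∃ f : ℝ, f = ((2 * m).factorial : ℝ) := ⟨_, rfl⟩
  have hf1 : 1 ≤ f := by rw [hf]; exact_mod_cast Nat.succ_le_of_lt (Nat.factorial_pos _)
  have hf0 : 0 < f := by linarith
  have hA3 : |θ| ^ (2 * m) / f * A2 ≤ 2 * ((|θ| / l) ^ (2 * m) * Real.exp (l ^ 2 * V)) := by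
    have h1 := av_pow_le2 P q φ (fun i hi => (hq i hi).1) hcop hper hle hsum l hl0 hl1 m
    rw [← hQ, ← hA2, ← hf, ← hV] at h1
    have h2 : 0 < l ^ (2 * m) := by positivity
    rw [div_mul_eq_mul_div, div_le_iff₀ hf0, div_pow]
    calc |θ| ^ (2 * m) * A2 = |θ| ^ (2 * m) / l ^ (2 * m) * (l ^ (2 * m) * A2) := by field_simp
      _ ≤ |θ| ^ (2 * m) / l ^ (2 * m) * (f * (2 * Real.exp (l ^ 2 * V))) :=
          mul_le_mul_of_nonneg_left h1 (by positivity)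
      _ = _ := by ring
  -- Taylor
  have t1 := taylor_sum S (fun n => G (v n)) (fun n => ∑ i ∈ P, φ i (v n)) (fun n _ => hG0 _) θ m
  have t2 := taylor_av (q := Q) (fun t : ι → ℤ => ∑ i ∈ P, φ i t) θ m
  have t3 := model_cf P q φ (fun i hi => (hq i hi).1) hcop hper hle hsum θ hθ
  rw [← hV, ← hQ] at t3
  rw [← hf] at t1
  rw [← hf, ← hA2] at t2
  obtain ⟨X1, hX1⟩ : ∃ X1 : ℂ, X1 = ∑ n ∈ S, (G (v n) : ℂ) * Complex.exp (Complex.I * ((θ * ∑ i ∈ P, φ i (v n) : ℝ) : ℂ)) :=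
    ⟨_, rfl⟩
  obtain ⟨X2, hX2⟩ : ∃ X2 : ℂ, X2 = ∑ k ∈ range (2 * m), (Complex.I * θ) ^ k / (k.factorial : ℂ) *
    ((∑ n ∈ S, G (v n) * (∑ i ∈ P, φ i (v n)) ^ k : ℝ) : ℂ) := ⟨_, rfl⟩
  obtain ⟨X3, hX3⟩ : ∃ X3 : ℂ, X3 = ∑ k ∈ range (2 * m), (Complex.I * θ) ^ k / (k.factorial : ℂ) *
    ((av Q (fun t : ι → ℤ => (∑ i ∈ P, φ i t) ^ k) : ℝ) : ℂ) := ⟨_, rfl⟩
  obtain ⟨X4, hX4⟩ : ∃ X4 : ℂ, X4 = cav Q (fun t : ι → ℤ => Complex.exp (Complex.I * ((θ * ∑ i ∈ P, φ i t : ℝ) : ℂ))) :=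
    ⟨_, rfl⟩
  obtain ⟨x5, hx5⟩ : ∃ x5 : ℝ, x5 = Real.exp (-(θ ^ 2 / 2 * V)) := ⟨_, rfl⟩
  rw [← hX1, ← hX2] at t1
  rw [← hX4, ← hX3] at t2
  rw [← hX4, ← hx5] at t3
  rw [← hV, ← hX1, ← hx5, ← hs, ← hg, ← hB]
  have u1 : ‖X2 - ((s * g : ℝ) : ℂ) * X3‖ ≤ 2 * m * (B ^ (2 * m) * E) := by
    rw [hX2, hX3, mul_sum, ← sum_sub_distrib]
    refine (norm_sum_le _ _).trans ?_
    have h1 : ∀ k ∈ range (2 * m), ‖(Complex.I * θ) ^ k / (k.factorial : ℂ) *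
        ((∑ n ∈ S, G (v n) * (∑ i ∈ P, φ i (v n)) ^ k : ℝ) : ℂ) - ((s * g : ℝ) : ℂ) *
        ((Complex.I * θ) ^ k / (k.factorial : ℂ) * ((av Q (fun t : ι → ℤ => (∑ i ∈ P, φ i t) ^ k) : ℝ) : ℂ))‖ ≤
        B ^ (2 * m) * E := by
      intro k hk
      rw [mem_range] at hk
      have e2 : (Complex.I * θ) ^ k / (k.factorial : ℂ) *
        ((∑ n ∈ S, G (v n) * (∑ i ∈ P, φ i (v n)) ^ k : ℝ) : ℂ) - ((s * g : ℝ) : ℂ) *
        ((Complex.I * θ) ^ k / (k.factorial : ℂ) * ((av Q (fun t : ι → ℤ => (∑ i ∈ P, φ i t) ^ k) : ℝ) : ℂ)) =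
        (Complex.I * θ) ^ k / (k.factorial : ℂ) * ((∑ n ∈ S, G (v n) * (∑ i ∈ P, φ i (v n)) ^ k -
          s * (g * av Q (fun c => (∑ i ∈ P, φ i c) ^ k)) : ℝ) : ℂ) := by
        push_cast
        ring
      rw [e2, norm_mul, norm_div, norm_pow, norm_mul, Complex.norm_I, one_mul, Complex.norm_real,
        Real.norm_eq_abs, Complex.norm_natCast, Complex.norm_real, Real.norm_eq_abs]
      have h2 := hmom k hk.le
      have h3 : |θ| ^ k / (k.factorial : ℝ) ≤ 1 := by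
        rw [div_le_one (by exact_mod_cast Nat.factorial_pos k)]
        have h4 : (1 : ℝ) ≤ k.factorial := by exact_mod_cast Nat.succ_le_of_lt (Nat.factorial_pos k)
        exact (pow_le_one₀ (abs_nonneg _) hθ).trans h4
      calc _ ≤ 1 * (B ^ (2 * m) * E) := mul_le_mul h3 h2 (abs_nonneg _) zero_le_one
        _ = _ := one_mul _
    refine (sum_le_sum h1).trans ?_
    rw [sum_const, card_range, nsmul_eq_mul]
    push_cast
    exact le_rfl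
  have u2 : |θ| ^ (2 * m) / f * ∑ n ∈ S, G (v n) * (∑ i ∈ P, φ i (v n)) ^ (2 * m) ≤
      B ^ (2 * m) * E + s * (2 * ((|θ| / l) ^ (2 * m) * Real.exp (l ^ 2 * V))) := by
    have h1 := (abs_le.1 (hmom (2 * m) le_rfl)).2
    rw [← hA2] at h1
    have h3 : |θ| ^ (2 * m) / f ≤ 1 := by
      rw [div_le_one hf0]
      exact (pow_le_one₀ (abs_nonneg _) hθ).trans hf1
    have h4 : 0 ≤ |θ| ^ (2 * m) / f := by positivity
    calc |θ| ^ (2 * m) / f * ∑ n ∈ S, G (v n) * (∑ i ∈ P, φ i (v n)) ^ (2 * m) ≤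
        |θ| ^ (2 * m) / f * (B ^ (2 * m) * E + s * (g * A2)) := mul_le_mul_of_nonneg_left (by linarith) h4
      _ = |θ| ^ (2 * m) / f * (B ^ (2 * m) * E) + s * (g * (|θ| ^ (2 * m) / f * A2)) := by ring
      _ ≤ 1 * (B ^ (2 * m) * E) + s * (1 * (2 * ((|θ| / l) ^ (2 * m) * Real.exp (l ^ 2 * V)))) := by
          gcongr
      _ = _ := by ring
  have u3 : ‖((s * g : ℝ) : ℂ) * X3 - ((s * g : ℝ) : ℂ) * X4‖ ≤
      s * (2 * ((|θ| / l) ^ (2 * m) * Real.exp (l ^ 2 * V))) := by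
    rw [← mul_sub, norm_mul, Complex.norm_real, Real.norm_eq_abs, abs_of_nonneg (by positivity), norm_sub_rev]
    have h1 := t2.trans hA3
    have h2 : s * g ≤ s := mul_le_of_le_one_right hs0 hg1
    exact mul_le_mul h2 h1 (norm_nonneg _) hs0
  have u4 : ‖((s * g : ℝ) : ℂ) * X4 - ((s * g : ℝ) : ℂ) * (x5 : ℂ)‖ ≤ s * (|θ| ^ 3 * V) := by
    rw [← mul_sub, norm_mul, Complex.norm_real, Real.norm_eq_abs, abs_of_nonneg (by positivity)]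
    have h2 : s * g ≤ s := mul_le_of_le_one_right hs0 hg1
    exact mul_le_mul h2 t3 (norm_nonneg _) hs0
  have e9 : X1 - ((s * (g * x5) : ℝ) : ℂ) = (X1 - X2) + ((X2 - ((s * g : ℝ) : ℂ) * X3) +
      ((((s * g : ℝ) : ℂ) * X3 - ((s * g : ℝ) : ℂ) * X4) + (((s * g : ℝ) : ℂ) * X4 - ((s * g : ℝ) : ℂ) * (x5 : ℂ)))) := by
    push_cast
    ring
  rw [e9]
  have n1 := norm_add_le (X1 - X2) ((X2 - ((s * g : ℝ) : ℂ) * X3) +
      ((((s * g : ℝ) : ℂ) * X3 - ((s * g : ℝ) : ℂ) * X4) + (((s * g : ℝ) : ℂ) * X4 - ((s * g : ℝ) : ℂ) * (x5 : ℂ))))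
  have n2 := norm_add_le (X2 - ((s * g : ℝ) : ℂ) * X3)
      ((((s * g : ℝ) : ℂ) * X3 - ((s * g : ℝ) : ℂ) * X4) + (((s * g : ℝ) : ℂ) * X4 - ((s * g : ℝ) : ℂ) * (x5 : ℂ)))
  have n3 := norm_add_le (((s * g : ℝ) : ℂ) * X3 - ((s * g : ℝ) : ℂ) * X4)
    (((s * g : ℝ) : ℂ) * X4 - ((s * g : ℝ) : ℂ) * (x5 : ℂ))
  have e10 : s * (2 * W * η * ((2 * m + 1) * B ^ (2 * m)) +
        4 * ((|θ| / l) ^ (2 * m) * Real.exp (l ^ 2 * V)) + |θ| ^ 3 * V) =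
      (B ^ (2 * m) * E + s * (2 * ((|θ| / l) ^ (2 * m) * Real.exp (l ^ 2 * V)))) + (2 * m * (B ^ (2 * m) * E) +
        (s * (2 * ((|θ| / l) ^ (2 * m) * Real.exp (l ^ 2 * V))) + s * (|θ| ^ 3 * V))) := by
    rw [hE]
    ring
  rw [e10]
  linarith

end Pool.Agent.L0h41.CL
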