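import Mathlib
import Pool.Agent.N368.TS.Var
import Pool.Agent.L0h54.GC.Cf

set_option autoImplicit false

/-!
# The central limit theorem for sums of functions of residues modulo coprime integers: the model
-/

namespace Pool.Agent.L0h41.CL

open Finset
open Pool.Agent.N368.TS

variable {ι : Type} [Fintype ι] [DecidableEq ι]

/-- the mean of a complex function over the residue vectors modulo `q` -/
noncomputable def cav (q : ℕ) (F : (ι → ℤ) → ℂ) : ℂ :=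
  (∑ t ∈ bx ι q, F (fun i => (t i : ℤ))) / (q : ℂ) ^ Fintype.card ι

theorem csum_mul {p q : ℕ} (hp : 0 < p) (hq : 0 < q) (h : p.Coprime q) {F G : (ι → ℤ) → ℂ}
    (hF : PerV F p) (hG : PerV G q) :
    ∑ t ∈ bx ι (p * q), F (fun i => (t i : ℤ)) * G (fun i => (t i : ℤ)) =
      (∑ t ∈ bx ι p, F (fun i => (t i : ℤ))) * ∑ t ∈ bx ι q, G (fun i => (t i : ℤ)) := by
  rw [sum_mul_sum, ← sum_product']
  refine sum_nbij' (fun t => (fun i => t i % p, fun i => t i % q))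
    (fun z i => (Nat.chineseRemainder h (z.1 i) (z.2 i) : ℕ)) ?_ ?_ ?_ ?_ ?_
  · intro t _
    rw [mem_product, mem_bx, mem_bx]
    exact ⟨fun i => Nat.mod_lt _ hp, fun i => Nat.mod_lt _ hq⟩
  · intro z _
    rw [mem_bx]
    intro i
    exact Nat.chineseRemainder_lt_mul h _ _ hp.ne' hq.ne'
  · intro t ht
    rw [mem_bx] at ht
    funext i
    have h1 := Nat.chineseRemainder_modEq_unique h (a := t i % p) (b := t i % q) (z := t i)
      (Nat.mod_modEq _ _).symm (Nat.mod_modEq _ _).symm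
    exact (Nat.ModEq.eq_of_lt_of_lt h1 (ht i) (Nat.chineseRemainder_lt_mul h _ _ hp.ne' hq.ne')).symm
  · intro z hz
    rw [mem_product, mem_bx, mem_bx] at hz
    apply Prod.ext
    · funext i
      have h1 := (Nat.chineseRemainder h (z.1 i) (z.2 i)).2.1
      exact (Nat.mod_eq_of_modEq h1 (hz.1 i))
    · funext i
      have h1 := (Nat.chineseRemainder h (z.1 i) (z.2 i)).2.2
      exact (Nat.mod_eq_of_modEq h1 (hz.2 i))
  · intro t _
    simp only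
    rw [hF.nat_mod, hG.nat_mod]

theorem cav_mul {p q : ℕ} (hp : 0 < p) (hq : 0 < q) (h : p.Coprime q) {F G : (ι → ℤ) → ℂ}
    (hF : PerV F p) (hG : PerV G q) :
    cav (p * q) (fun c => F c * G c) = cav p F * cav q G := by
  unfold cav
  rw [csum_mul hp hq h hF hG, div_mul_div_comm]
  push_cast
  rw [mul_pow]

theorem cav_prod (q : ℕ → ℕ) (F : ℕ → (ι → ℤ) → ℂ) (I : Finset ℕ)
    (hq : ∀ i ∈ I, 0 < q i) (hcop : ∀ i ∈ I, ∀ j ∈ I, i ≠ j → Nat.Coprime (q i) (q j))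
    (hper : ∀ i ∈ I, PerV (F i) (q i)) :
    PerV (fun c => ∏ i ∈ I, F i c) (∏ i ∈ I, q i) ∧
      cav (∏ i ∈ I, q i) (fun c => ∏ i ∈ I, F i c) = ∏ i ∈ I, cav (q i) (F i) := by
  induction I using Finset.induction_on with
  | empty =>
    refine ⟨fun c d _ => rfl, ?_⟩
    unfold cav
    simp [card_bx]
  | insert a I ha ih =>
    obtain ⟨h1, h2⟩ := ih (fun i hi => hq i (mem_insert_of_mem hi))
      (fun i hi j hj => hcop i (mem_insert_of_mem hi) j (mem_insert_of_mem hj))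
      (fun i hi => hper i (mem_insert_of_mem hi))
    have hqa := hq a (mem_insert_self _ _)
    have hpos : 0 < ∏ i ∈ I, q i := prod_pos fun i hi => hq i (mem_insert_of_mem hi)
    have hc : Nat.Coprime (q a) (∏ i ∈ I, q i) := by
      apply Nat.Coprime.prod_right
      intro i hi
      exact hcop a (mem_insert_self _ _) i (mem_insert_of_mem hi) (by
        rintro rfl
        exact ha hi)
    have hpa := hper a (mem_insert_self _ _)
    refine ⟨?_, ?_⟩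
    · intro c d hcd
      simp only
      rw [prod_insert ha, prod_insert ha]
      rw [prod_insert ha] at hcd
      have e1 : F a c = F a d := (hpa.of_dvd (Dvd.intro _ rfl)) c d hcd
      have e2 := (h1.of_dvd (Dvd.intro_left (q a) rfl)) c d hcd
      simp only at e2
      rw [e1, e2]
    · rw [prod_insert ha, prod_insert ha]
      have e : (fun c : ι → ℤ => ∏ i ∈ insert a I, F i c) =
          fun c => F a c * (fun c => ∏ i ∈ I, F i c) c := by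
        funext c
        rw [prod_insert ha]
      rw [e, cav_mul hqa hpos hc hpa h1, h2]

lemma cav_add (q : ℕ) (F G : (ι → ℤ) → ℂ) : cav q (fun t => F t + G t) = cav q F + cav q G := by
  unfold cav
  rw [sum_add_distrib]
  ring

lemma cav_smul (q : ℕ) (c : ℂ) (F : (ι → ℤ) → ℂ) : cav q (fun t => c * F t) = c * cav q F := by
  unfold cav
  rw [← mul_sum]
  ring

lemma cav_sum {κ : Type*} (q : ℕ) (T : Finset κ) (F : κ → (ι → ℤ) → ℂ) :
    cav q (fun c => ∑ t ∈ T, F t c) = ∑ t ∈ T, cav q (F t) := by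
  unfold cav
  rw [sum_comm, sum_div]

lemma cav_ofReal (q : ℕ) (F : (ι → ℤ) → ℝ) : cav q (fun t => (F t : ℂ)) = ((av q F : ℝ) : ℂ) := by
  unfold cav av
  push_cast
  rfl

lemma cav_norm (q : ℕ) (F : (ι → ℤ) → ℂ) (G : (ι → ℤ) → ℝ) (h : ∀ t, ‖F t‖ ≤ G t) :
    ‖cav q F‖ ≤ av q G := by
  unfold cav av
  rw [norm_div, norm_pow, Complex.norm_natCast]
  refine div_le_div_of_nonneg_right ?_ (by positivity)
  exact (norm_sum_le _ _).trans (sum_le_sum fun t _ => h _)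

/-- products of numbers in the unit disc -/
lemma prod_diff (P : Finset ℕ) (a b : ℕ → ℂ) (ha : ∀ i ∈ P, ‖a i‖ ≤ 1) (hb : ∀ i ∈ P, ‖b i‖ ≤ 1) :
    ‖∏ i ∈ P, a i - ∏ i ∈ P, b i‖ ≤ ∑ i ∈ P, ‖a i - b i‖ := by
  induction P using Finset.induction_on with
  | empty => simp
  | insert x P hx ih =>
    rw [prod_insert hx, prod_insert hx, sum_insert hx]
    have h1 := ih (fun i hi => ha i (mem_insert_of_mem hi)) (fun i hi => hb i (mem_insert_of_mem hi))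
    have e : a x * ∏ i ∈ P, a i - b x * ∏ i ∈ P, b i =
        (a x - b x) * ∏ i ∈ P, a i + b x * (∏ i ∈ P, a i - ∏ i ∈ P, b i) := by ring
    rw [e]
    refine (norm_add_le _ _).trans ?_
    rw [norm_mul, norm_mul]
    have h2 : ‖∏ i ∈ P, a i‖ ≤ 1 := by
      rw [norm_prod]
      exact prod_le_one (fun _ _ => norm_nonneg _) (fun i hi => ha i (mem_insert_of_mem hi))
    have h3 := hb x (mem_insert_self _ _)
    have h4 : ‖a x - b x‖ * ‖∏ i ∈ P, a i‖ ≤ ‖a x - b x‖ * 1 := mul_le_mul_of_nonneg_left h2 (norm_nonneg _)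
    have h5 : ‖b x‖ * ‖∏ i ∈ P, a i - ∏ i ∈ P, b i‖ ≤ 1 * ‖∏ i ∈ P, a i - ∏ i ∈ P, b i‖ :=
      mul_le_mul_of_nonneg_right h3 (norm_nonneg _)
    linarith

/-- one factor of the characteristic function -/
lemma cav_exp {q : ℕ} (hq : 0 < q) {φ : (ι → ℤ) → ℝ} (hle : ∀ t, |φ t| ≤ 1) (h0 : av q φ = 0) (θ : ℝ)
    (hθ : |θ| ≤ 1) :
    ‖cav q (fun t => Complex.exp (Complex.I * ((θ * φ t : ℝ) : ℂ))) -
      ((Real.exp (-(θ ^ 2 / 2 * av q (fun t => φ t ^ 2))) : ℝ) : ℂ)‖ ≤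
      |θ| ^ 3 * av q (fun t => φ t ^ 2) := by
  obtain ⟨s, hs⟩ : ∃ s, s = av q (fun t => φ t ^ 2) := ⟨_, rfl⟩
  have hs0 : 0 ≤ s := by rw [hs]; exact av_nonneg fun t => sq_nonneg _
  have hs1 : s ≤ 1 := by
    rw [hs, ← av_one (ι := ι) hq]
    refine av_mono fun t => ?_
    rw [← sq_abs]
    exact pow_le_one₀ (abs_nonneg _) (hle t)
  rw [← hs]
  have h1 : ‖cav q (fun t => Complex.exp (Complex.I * ((θ * φ t : ℝ) : ℂ)) +
      (-1) * ((1 + Complex.I * θ * φ t - θ ^ 2 / 2 * (φ t) ^ 2 : ℂ)))‖ ≤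
      av q (fun t => |θ| ^ 3 / 6 * φ t ^ 2) := by
    apply cav_norm
    intro t
    have h2 := Pool.Agent.L0h54.GC.exp_taylor' (Complex.I * ((θ * φ t : ℝ) : ℂ)) (by simp) 3
    have e1 : ∑ k ∈ range 3, (Complex.I * ((θ * φ t : ℝ) : ℂ)) ^ k / (k.factorial : ℂ) =
        1 + Complex.I * θ * φ t - θ ^ 2 / 2 * (φ t) ^ 2 := by
      rw [sum_range_succ, sum_range_succ, sum_range_succ, sum_range_zero]
      simp only [Nat.factorial]
      push_cast
      have : Complex.I ^ 2 = -1 := Complex.I_sq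
      linear_combination ((θ : ℂ) ^ 2 * (φ t : ℂ) ^ 2 / 2) * this
    rw [e1] at h2
    have e2 : Complex.exp (Complex.I * ((θ * φ t : ℝ) : ℂ)) +
      (-1) * ((1 + Complex.I * θ * φ t - θ ^ 2 / 2 * (φ t) ^ 2 : ℂ)) =
      Complex.exp (Complex.I * ((θ * φ t : ℝ) : ℂ)) - (1 + Complex.I * θ * φ t - θ ^ 2 / 2 * (φ t) ^ 2) := by ring
    rw [e2]
    refine h2.trans ?_
    rw [norm_mul, Complex.norm_I, one_mul, Complex.norm_real, Real.norm_eq_abs, abs_mul, mul_pow]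
    have h3 : |φ t| ^ 3 ≤ φ t ^ 2 := by
      rw [← sq_abs (φ t)]
      exact pow_le_pow_of_le_one (abs_nonneg _) (hle t) (by norm_num)
    have h4 : ((3 : ℕ).factorial : ℝ) = 6 := by norm_num [Nat.factorial]
    rw [h4]
    have h5 := mul_le_mul_of_nonneg_left h3 (by positivity : 0 ≤ |θ| ^ 3)
    calc |θ| ^ 3 * |φ t| ^ 3 / 6 ≤ |θ| ^ 3 * φ t ^ 2 / 6 := by linarith
      _ = _ := by ring
  rw [av_smul, ← hs, cav_add, cav_smul] at h1
  have h6 : cav q (fun t : ι → ℤ => (1 + Complex.I * θ * φ t - θ ^ 2 / 2 * (φ t) ^ 2 : ℂ)) =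
      ((1 - θ ^ 2 / 2 * s : ℝ) : ℂ) := by
    have e1 : (fun t : ι → ℤ => (1 + Complex.I * θ * φ t - θ ^ 2 / 2 * (φ t) ^ 2 : ℂ)) =
        fun t => (((1 : ℝ) : ℂ) + (Complex.I * θ) * ((φ t : ℝ) : ℂ)) + (-(θ ^ 2 / 2) : ℂ) * ((φ t ^ 2 : ℝ) : ℂ) := by
      funext t
      push_cast
      ring
    rw [e1, cav_add, cav_add, cav_smul, cav_smul, cav_ofReal, cav_ofReal, cav_ofReal,
      h0, ← hs, av_one hq]
    push_cast
    ring
  rw [h6] at h1
  have hx0 : 0 ≤ θ ^ 2 / 2 * s := by positivity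
  have h7 : ‖((1 - θ ^ 2 / 2 * s : ℝ) : ℂ) - ((Real.exp (-(θ ^ 2 / 2 * s)) : ℝ) : ℂ)‖ ≤ |θ| ^ 3 * s / 8 := by
    have h8 := Pool.Agent.L0h54.GC.exp_taylor' ((-(θ ^ 2 / 2 * s) : ℝ) : ℂ) (by
      rw [Complex.ofReal_re]
      linarith) 2
    rw [sum_range_succ, sum_range_succ, sum_range_zero] at h8
    rw [← Complex.ofReal_exp] at h8
    have e2 : ((Real.exp (-(θ ^ 2 / 2 * s)) : ℝ) : ℂ) - (0 + ((-(θ ^ 2 / 2 * s) : ℝ) : ℂ) ^ 0 / ((0 : ℕ).factorial : ℂ) +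
        ((-(θ ^ 2 / 2 * s) : ℝ) : ℂ) ^ 1 / ((1 : ℕ).factorial : ℂ)) =
        -(((1 - θ ^ 2 / 2 * s : ℝ) : ℂ) - ((Real.exp (-(θ ^ 2 / 2 * s)) : ℝ) : ℂ)) := by
      simp only [Nat.factorial]
      push_cast
      ring
    rw [e2, norm_neg] at h8
    refine h8.trans ?_
    rw [Complex.norm_real, Real.norm_eq_abs, abs_neg, abs_of_nonneg hx0]
    have e3 : (θ ^ 2 / 2 * s) ^ 2 / ((2 : ℕ).factorial : ℝ) = (|θ| ^ 3 * s / 8) * (|θ| * s) := by
      have : (θ ^ 2 / 2 * s) ^ 2 = ((|θ| ^ 2) / 2 * s) ^ 2 := by rw [sq_abs]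
      have h2 : ((2 : ℕ).factorial : ℝ) = 2 := by norm_num [Nat.factorial]
      rw [this, h2]
      ring
    rw [e3]
    have h9 : |θ| * s ≤ 1 := mul_le_one₀ hθ hs0 hs1
    exact mul_le_of_le_one_right (by positivity) h9
  have e4 : cav q (fun t : ι → ℤ => Complex.exp (Complex.I * ((θ * φ t : ℝ) : ℂ))) -
      ((Real.exp (-(θ ^ 2 / 2 * s)) : ℝ) : ℂ) =
      (cav q (fun t : ι → ℤ => Complex.exp (Complex.I * ((θ * φ t : ℝ) : ℂ))) + (-1) * ((1 - θ ^ 2 / 2 * s : ℝ) : ℂ)) +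
      (((1 - θ ^ 2 / 2 * s : ℝ) : ℂ) - ((Real.exp (-(θ ^ 2 / 2 * s)) : ℝ) : ℂ)) := by ring
  rw [e4]
  refine (norm_add_le _ _).trans ?_
  have h10 : 0 ≤ |θ| ^ 3 * s := by positivity
  linarith

/-- **the characteristic function in the model** -/
theorem model_cf (P : Finset ℕ) (q : ℕ → ℕ) (φ : ℕ → (ι → ℤ) → ℝ)
    (hq : ∀ i ∈ P, 0 < q i) (hcop : ∀ i ∈ P, ∀ j ∈ P, i ≠ j → Nat.Coprime (q i) (q j))
    (hper : ∀ i ∈ P, PerV (φ i) (q i)) (hle : ∀ i n, |φ i n| ≤ 1) (hsum : ∀ i ∈ P, av (q i) (φ i) = 0)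
    (θ : ℝ) (hθ : |θ| ≤ 1) :
    ‖cav (∏ i ∈ P, q i) (fun t => Complex.exp (Complex.I * ((θ * ∑ i ∈ P, φ i t : ℝ) : ℂ))) -
      ((Real.exp (-(θ ^ 2 / 2 * ∑ i ∈ P, av (q i) (fun t => φ i t ^ 2))) : ℝ) : ℂ)‖ ≤
      |θ| ^ 3 * ∑ i ∈ P, av (q i) (fun t => φ i t ^ 2) := by
  have e1 : (fun t : ι → ℤ => Complex.exp (Complex.I * ((θ * ∑ i ∈ P, φ i t : ℝ) : ℂ))) =
      fun t => ∏ i ∈ P, Complex.exp (Complex.I * ((θ * φ i t : ℝ) : ℂ)) := by
    funext t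
    rw [← Complex.exp_sum, ← mul_sum, mul_sum P _ θ, Complex.ofReal_sum]
  have e2 : ((Real.exp (-(θ ^ 2 / 2 * ∑ i ∈ P, av (q i) (fun t => φ i t ^ 2))) : ℝ) : ℂ) =
      ∏ i ∈ P, ((Real.exp (-(θ ^ 2 / 2 * av (q i) (fun t => φ i t ^ 2))) : ℝ) : ℂ) := by
    rw [← Complex.ofReal_prod, ← Real.exp_sum, sum_neg_distrib, mul_sum]
  rw [e1, e2, (cav_prod q (fun i t => Complex.exp (Complex.I * ((θ * φ i t : ℝ) : ℂ))) P hq hcop
    (fun i hi c' d hcd => by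
      simp only
      rw [hper i hi c' d hcd])).2]
  refine (prod_diff P _ _ ?_ ?_).trans ?_
  · intro i hi
    have h1 := cav_norm (q i) (fun t => Complex.exp (Complex.I * ((θ * φ i t : ℝ) : ℂ))) (fun _ => 1) (by
      intro t
      rw [mul_comm, Complex.norm_exp_ofReal_mul_I])
    rwa [av_one (hq i hi)] at h1
  · intro i hi
    rw [Complex.norm_real, Real.norm_eq_abs, abs_of_pos (Real.exp_pos _)]
    apply Real.exp_le_one_iff.2
    have : 0 ≤ av (q i) (fun t => φ i t ^ 2) := av_nonneg fun t => sq_nonneg _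
    have : 0 ≤ θ ^ 2 / 2 * av (q i) (fun t => φ i t ^ 2) := by positivity
    linarith
  · rw [mul_sum]
    exact sum_le_sum fun i hi => cav_exp (hq i hi) (hle i) (hsum i hi) θ hθ

end Pool.Agent.L0h41.CL
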