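import Pool.Agent.L0h41.CL.B
import Pool.Agent.L0h54.GC.LC
import Pool.Agent.L0h45.LT.Box

set_option autoImplicit false

/-!
# The central limit theorem: from characteristic functions to distribution functions; boxes
-/

namespace Pool.Agent.L0h41.CL

open Finset MeasureTheory ProbabilityTheory
open Pool.Agent.N368.TS

/-- closeness of the characteristic functions of a finite family gives closeness in distribution -/
theorem clt_of_cf (δ : ℝ) (hδ : 0 < δ) : ∃ U : ℝ, 0 < U ∧ ∃ τ : ℝ, 0 < τ ∧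
    ∀ (Ω : Type) (F : Finset Ω) (X : Ω → ℝ), F.Nonempty →
      (∀ u : ℝ, |u| ≤ U → ‖∑ n ∈ F, Complex.exp (Complex.I * ((u * X n : ℝ) : ℂ)) -
        ((F.card * Real.exp (-(u ^ 2 / 2)) : ℝ) : ℂ)‖ ≤ τ * F.card) →
      ∀ t, |((F.filter (fun n => X n ≤ t)).card : ℝ) / F.card - cdf (gaussianReal 0 1) t| ≤ δ := by
  classical
  obtain ⟨U, hU, τ, hτ, h⟩ := Pool.Agent.L0h54.GC.levy_quant δ hδ
  refine ⟨U, hU, τ, hτ, ?_⟩
  intro Ω F X hF hcf t
  have hc0 : (0 : ℝ) < F.card := by exact_mod_cast hF.card_pos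
  have hcE : (F.card : ENNReal) ≠ 0 := by exact_mod_cast hF.card_pos.ne'
  have hcT : (F.card : ENNReal) ≠ ⊤ := ENNReal.natCast_ne_top _
  obtain ⟨μ, hμ⟩ : ∃ μ : Measure ℝ, μ = (F.card : ENNReal)⁻¹ • ∑ n ∈ F, Measure.dirac (X n) := ⟨_, rfl⟩
  have hμs : ∀ s : Set ℝ, MeasurableSet s → μ s = (F.card : ENNReal)⁻¹ * ((F.filter (fun n => X n ∈ s)).card : ENNReal) := by
    intro s hs
    rw [hμ, Measure.smul_apply, smul_eq_mul, Measure.finsetSum_apply]
    congr 1
    rw [card_filter]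
    push_cast
    apply sum_congr rfl
    intro n _
    rw [Measure.dirac_apply' _ hs, Set.indicator_apply]
    simp
  have hprob : IsProbabilityMeasure μ := by
    refine ⟨?_⟩
    rw [hμs _ MeasurableSet.univ]
    simp only [Set.mem_univ, filter_true]
    exact ENNReal.inv_mul_cancel hcE hcT
  have h1 := h μ hprob (by
    intro u hu
    have h2 := hcf u hu
    have e1 : charFun μ u = ((F.card : ℝ) : ℂ)⁻¹ * ∑ n ∈ F, Complex.exp (Complex.I * ((u * X n : ℝ) : ℂ)) := by
      rw [charFun_apply_real, hμ, integral_smul_measure, integral_finsetSum_measure]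
      · rw [ENNReal.toReal_inv, ENNReal.toReal_natCast, Complex.real_smul]
        push_cast
        congr 1
        apply sum_congr rfl
        intro n _
        rw [integral_dirac]
        congr 1
        ring
      · intro n _
        exact integrable_dirac (by simp)
    rw [e1]
    have e2 : ((F.card : ℝ) : ℂ)⁻¹ * ∑ n ∈ F, Complex.exp (Complex.I * ((u * X n : ℝ) : ℂ)) -
        ((Real.exp (-(u ^ 2 / 2)) : ℝ) : ℂ) =
        ((F.card : ℝ) : ℂ)⁻¹ * (∑ n ∈ F, Complex.exp (Complex.I * ((u * X n : ℝ) : ℂ)) -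
        ((F.card * Real.exp (-(u ^ 2 / 2)) : ℝ) : ℂ)) := by
      have : ((F.card : ℝ) : ℂ) ≠ 0 := by exact_mod_cast hc0.ne'
      rw [mul_sub]
      congr 1
      rw [Complex.ofReal_mul]
      field_simp
    rw [e2, norm_mul, norm_inv, Complex.norm_real, Real.norm_eq_abs, abs_of_pos hc0,
      inv_mul_le_iff₀ hc0]
    linarith) t
  rw [hμs _ measurableSet_Iic, ENNReal.toReal_mul, ENNReal.toReal_inv, ENNReal.toReal_natCast,
    ENNReal.toReal_natCast, inv_mul_eq_div] at h1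
  simpa only [Set.mem_Iic] using h1

/-- the box -/
noncomputable def box (K L : ℕ) : Finset (ℤ × ℤ) := Icc (-(K : ℤ)) K ×ˢ Icc (-(L : ℤ)) L

lemma box_card (K L : ℕ) : ((box K L).card : ℝ) = (2 * K + 1) * (2 * L + 1) := by
  unfold box
  rw [card_product, Int.card_Icc, Int.card_Icc]
  have e1 : ((K : ℤ) + 1 - -(K : ℤ)).toNat = 2 * K + 1 := by omega
  have e2 : ((L : ℤ) + 1 - -(L : ℤ)).toNat = 2 * L + 1 := by omega
  rw [e1, e2]
  push_cast
  ring

/-- the vector of a pair -/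
def vec (q : ℤ × ℤ) : Fin 2 → ℤ := ![q.1, q.2]

lemma box_eqd (K L : ℕ) (R : ℝ) : Eqd (box K L) vec R (2 / (2 * K + 1) + 2 / (2 * L + 1)) := by
  intro M hM _ F hF hF1 hav
  have h1 := Pool.Agent.L0h45.LT.box_sum M hM F hF hF1 hav K L
  rw [box_card]
  unfold box vec
  rw [sum_product]
  refine h1.trans (le_of_eq ?_)
  have a1 : (2 * (K : ℝ) + 1) ≠ 0 := by positivity
  have a2 : (2 * (L : ℝ) + 1) ≠ 0 := by positivity
  push_cast
  field_simp
  ring

end Pool.Agent.L0h41.CL
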