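import Pool.Agent.L0h41.CL.C

set_option autoImplicit false

/-!
# The central limit theorem for sums of functions of residues over a family
-/

namespace Pool.Agent.L0h41.CL

open Finset MeasureTheory ProbabilityTheory
open Pool.Agent.N368.TS

/-- the primes up to `x` -/
def prs (x : ℕ) : Finset ℕ := (range (x + 1)).filter Nat.Prime

variable {ι : Type} [Fintype ι] [DecidableEq ι]

/-- the variance modulo `p` -/
noncomputable def vr (g : ℕ → (ι → ℤ) → ℝ) (p : ℕ) : ℝ := av p (fun c => g p c ^ 2) - av p (g p) ^ 2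

lemma av_abs_le {p : ℕ} (hp : 0 < p) {f : (ι → ℤ) → ℝ} (h : ∀ c, |f c| ≤ 1) : |av p f| ≤ 1 := by
  rw [abs_le]
  constructor
  · rw [neg_le, ← av_one (ι := ι) hp]
    have : -av p f = av p (fun t => (-1) * f t) := by rw [av_smul]; ring
    rw [this]
    refine av_mono fun t => ?_
    have := (abs_le.1 (h t)).1
    linarith
  · rw [← av_one (ι := ι) hp]
    exact av_mono fun t => (abs_le.1 (h t)).2

/-- the centred and halved function -/
noncomputable def cen (g : ℕ → (ι → ℤ) → ℝ) (p : ℕ) (c : ι → ℤ) : ℝ :=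
  if p.Prime then (g p c - av p (g p)) / 2 else 0

lemma cen_le {g : ℕ → (ι → ℤ) → ℝ} (hg : ∀ p c, |g p c| ≤ 1) (p : ℕ) (c : ι → ℤ) : |cen g p c| ≤ 1 := by
  unfold cen
  split_ifs with hp
  · have h1 := abs_le.1 (hg p c)
    have h2 := abs_le.1 (av_abs_le hp.pos (hg p))
    rw [abs_le]
    constructor <;> linarith [h1.1, h1.2, h2.1, h2.2]
  · simp

lemma av_cen (g : ℕ → (ι → ℤ) → ℝ) {p : ℕ} (hp : p.Prime) : av p (cen g p) = 0 := by
  have e : cen g p = fun c => (1 / 2) * g p c + (-(av p (g p)) / 2) * (fun _ => (1 : ℝ)) c := by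
    funext c
    unfold cen
    rw [if_pos hp]
    ring
  rw [e, av_add, av_smul, av_smul, av_one hp.pos]
  ring

lemma av_cen_sq (g : ℕ → (ι → ℤ) → ℝ) {p : ℕ} (hp : p.Prime) : av p (fun c => cen g p c ^ 2) = vr g p / 4 := by
  have e : (fun c => cen g p c ^ 2) = fun c => (1 / 4) * g p c ^ 2 + ((-(av p (g p)) / 2) * g p c +
      ((av p (g p)) ^ 2 / 4) * (fun _ => (1 : ℝ)) c) := by
    funext c
    unfold cen
    rw [if_pos hp]
    ring
  rw [e, av_add, av_smul, av_add, av_smul, av_smul, av_one hp.pos]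
  unfold vr
  ring

lemma vr_nonneg (g : ℕ → (ι → ℤ) → ℝ) {p : ℕ} (hp : p.Prime) : 0 ≤ vr g p := by
  have h1 := av_cen_sq g hp
  have h2 : 0 ≤ av p (fun c => cen g p c ^ 2) := av_nonneg fun t => sq_nonneg _
  linarith

lemma vr_le_one {g : ℕ → (ι → ℤ) → ℝ} (hg : ∀ p c, |g p c| ≤ 1) {p : ℕ} (hp : p.Prime) : vr g p ≤ 1 := by
  have h1 : av p (fun c => g p c ^ 2) ≤ 1 := by
    rw [← av_one (ι := ι) hp.pos]
    refine av_mono fun t => ?_
    rw [← sq_abs]
    exact pow_le_one₀ (abs_nonneg _) (hg p t)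
  unfold vr
  nlinarith [sq_nonneg (av p (g p))]

lemma exp_lip (a b : ℝ) : ‖Complex.exp (Complex.I * (a : ℂ)) - Complex.exp (Complex.I * (b : ℂ))‖ ≤ |a - b| := by
  have h := Real.norm_exp_I_mul_ofReal_sub_one_le (x := a - b)
  have e : Complex.exp (Complex.I * (a : ℂ)) - Complex.exp (Complex.I * (b : ℂ)) =
      Complex.exp (Complex.I * (b : ℂ)) * (Complex.exp (Complex.I * ((a - b : ℝ) : ℂ)) - 1) := by
    rw [mul_sub, ← Complex.exp_add, mul_one]
    congr 2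
    push_cast
    ring
  rw [e, norm_mul, mul_comm Complex.I, Complex.norm_exp_ofReal_mul_I, one_mul]
  exact h

set_option maxHeartbeats 2000000 in
/-- **the central limit theorem for a family** -/
theorem clt_core (δ : ℝ) (hδ : 0 < δ) : ∃ ε : ℝ, 0 < ε ∧ ∀ z W : ℕ, 1 ≤ W → ∃ C0 : ℕ, ∃ V0 : ℝ, 1 ≤ V0 ∧
    ∀ (Ω : Type) (S F : Finset Ω) (v : Ω → ι → ℤ) (G : (ι → ℤ) → ℝ) (η : ℝ) (x : ℕ) (g : ℕ → (ι → ℤ) → ℝ),
      F ⊆ S → (S.card : ℝ) ≤ 2 * F.card → F.Nonempty →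
      (∀ p, p.Prime → z < p → Nat.Coprime W p) → PerV G W → (∀ n, 0 ≤ G n) → (∀ n, G n ≤ 1) →
      (∑ n ∈ S, |G (v n) - (F : Set Ω).indicator (fun _ => 1) n|) ≤ ε * S.card →
      0 ≤ η → Eqd S v ((x : ℝ) ^ C0) η → η * (x : ℝ) ^ C0 ≤ 4 →
      (∀ p, p.Prime → PerV (g p) p) → (∀ p c, |g p c| ≤ 1) →
      V0 ≤ ∑ p ∈ prs x, vr g p →
      ∀ t : ℝ, |((F.filter (fun n => ∑ p ∈ prs x, g p (v n) - ∑ p ∈ prs x, av p (g p) ≤
        t * √(∑ p ∈ prs x, vr g p))).card : ℝ) / F.card - cdf (gaussianReal 0 1) t| ≤ δ := by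
  classical
  obtain ⟨U, hU, τ, hτ, hclt⟩ := clt_of_cf δ hδ
  refine ⟨τ / 16, by positivity, ?_⟩
  intro z W hW
  obtain ⟨m0, hm0⟩ : ∃ m0 : ℕ, (1 / 4 : ℝ) ^ m0 < τ / (128 * Real.exp (4 * U ^ 2)) :=
    exists_pow_lt_of_lt_one (by positivity) (by norm_num)
  obtain ⟨m, hm⟩ : ∃ m, m = m0 + 1 := ⟨_, rfl⟩
  have hm1 : 1 ≤ m := by omega
  have hm2 : 4 * ((1 / 4 : ℝ) ^ m * Real.exp (4 * U ^ 2)) ≤ τ / 32 := by
    have h1 : (1 / 4 : ℝ) ^ m ≤ (1 / 4 : ℝ) ^ m0 := pow_le_pow_of_le_one (by norm_num) (by norm_num) (by omega)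
    have h2 : (1 / 4 : ℝ) ^ m ≤ τ / (128 * Real.exp (4 * U ^ 2)) := h1.trans hm0.le
    rw [le_div_iff₀ (by positivity)] at h2
    linarith
  obtain ⟨r, hr⟩ : ∃ r : ℝ, r = 4 * U + 64 * U ^ 3 / τ + 64 * U * z / τ + 1 := ⟨_, rfl⟩
  have hr1 : 1 ≤ r := by
    rw [hr]
    have : 0 ≤ 4 * U + 64 * U ^ 3 / τ + 64 * U * z / τ := by positivity
    linarith
  refine ⟨4 * m + 1, r ^ 2 + 16 * U ^ 2 * z / τ + 256 * W * (2 * m + 1) / τ + W + z + 1, ?_, ?_⟩
  · have : 0 ≤ r ^ 2 + 16 * U ^ 2 * z / τ + 256 * W * (2 * m + 1) / τ + W + z := by positivity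
    linarith
  intro Ω S F v G η x g hFS hSF hFne hcW hG hG0 hG1 hGF hη hEq hηx hgper hg hV
  obtain ⟨V, hVd⟩ : ∃ V, V = ∑ p ∈ prs x, vr g p := ⟨_, rfl⟩
  obtain ⟨Mn, hMn⟩ : ∃ Mn, Mn = ∑ p ∈ prs x, av p (g p) := ⟨_, rfl⟩
  obtain ⟨P, hP⟩ : ∃ P, P = (prs x).filter (fun p => z < p) := ⟨_, rfl⟩
  obtain ⟨V', hV'⟩ : ∃ V', V' = ∑ p ∈ P, vr g p := ⟨_, rfl⟩
  rw [← hVd] at hV
  rw [← hVd, ← hMn]
  have hprs : ∀ p ∈ prs x, p.Prime ∧ p ≤ x := by
    intro p hp
    unfold prs at hp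
    rw [mem_filter, mem_range] at hp
    exact ⟨hp.2, by omega⟩
  have hPm : ∀ p ∈ P, p.Prime ∧ p ≤ x ∧ z < p := by
    intro p hp
    rw [hP, mem_filter] at hp
    exact ⟨(hprs p hp.1).1, (hprs p hp.1).2, hp.2⟩
  have hb1 : 0 ≤ 16 * U ^ 2 * z / τ := by positivity
  have hb2 : 0 ≤ 256 * W * (2 * m + 1) / τ := by positivity
  have hb3 : (0 : ℝ) ≤ W := Nat.cast_nonneg _
  have hb4 : (0 : ℝ) ≤ z := Nat.cast_nonneg _
  have hb5 : 0 ≤ r ^ 2 := sq_nonneg _
  have hV1 : 1 ≤ V := by linarith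
  have hV0 : 0 < V := by linarith
  have hrV : r ^ 2 ≤ V := by linarith
  have hsV : r ≤ √V := Real.le_sqrt_of_sq_le hrV
  have hsV0 : 0 < √V := by linarith
  have hss : √V * √V = V := Real.mul_self_sqrt hV0.le
  -- the small primes
  have hsmall : (((prs x).filter (fun p => ¬ z < p)).card : ℝ) ≤ z := by
    have h1 : (prs x).filter (fun p => ¬ z < p) ⊆ Icc 1 z := by
      intro p hp
      rw [mem_filter] at hp
      rw [mem_Icc]
      exact ⟨(hprs p hp.1).1.one_lt.le, by omega⟩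
    have h2 := card_le_card h1
    rw [Nat.card_Icc] at h2
    exact_mod_cast (by omega : ((prs x).filter (fun p => ¬ z < p)).card ≤ z)
  have hsplit : ∀ f : ℕ → ℝ, ∑ p ∈ prs x, f p = ∑ p ∈ P, f p + ∑ p ∈ (prs x).filter (fun p => ¬ z < p), f p := by
    intro f
    rw [hP]
    exact (sum_filter_add_sum_filter_not _ _ _).symm
  have hVV1 : V' ≤ V := by
    rw [hVd, hsplit, ← hV']
    have : 0 ≤ ∑ p ∈ (prs x).filter (fun p => ¬ z < p), vr g p :=
      sum_nonneg fun p hp => vr_nonneg g (hprs p (mem_filter.1 hp).1).1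
    linarith
  have hVV2 : V ≤ V' + z := by
    rw [hVd, hsplit, ← hV']
    have h1 : ∑ p ∈ (prs x).filter (fun p => ¬ z < p), vr g p ≤
        ∑ p ∈ (prs x).filter (fun p => ¬ z < p), (1 : ℝ) :=
      sum_le_sum fun p hp => vr_le_one hg (hprs p (mem_filter.1 hp).1).1
    rw [sum_const, nsmul_eq_mul, mul_one] at h1
    linarith
  have hV'0 : 0 < V' := by linarith
  have hPne : P.Nonempty := by
    rw [nonempty_iff_ne_empty]
    rintro rfl
    rw [sum_empty] at hV'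
    linarith
  have hPc : 1 ≤ P.card := hPne.card_pos
  have hPx : P.card ≤ x := by
    have h1 : P ⊆ Icc 1 x := by
      intro p hp
      obtain ⟨h1, h2, _⟩ := hPm p hp
      rw [mem_Icc]
      exact ⟨h1.one_lt.le, h2⟩
    have h2 := card_le_card h1
    rw [Nat.card_Icc] at h2
    omega
  have hVx : V ≤ x := by
    rw [hVd]
    have h1 : ∑ p ∈ prs x, vr g p ≤ ∑ p ∈ prs x, (1 : ℝ) := sum_le_sum fun p hp => vr_le_one hg (hprs p hp).1
    rw [sum_const, nsmul_eq_mul, mul_one] at h1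
    have h2 : prs x ⊆ Icc 1 x := by
      intro p hp
      rw [mem_Icc]
      exact ⟨(hprs p hp).1.one_lt.le, (hprs p hp).2⟩
    have h3 := card_le_card h2
    rw [Nat.card_Icc] at h3
    have h4 : ((prs x).card : ℝ) ≤ x := by exact_mod_cast (by omega : (prs x).card ≤ x)
    linarith
  have hx1 : 1 ≤ x := by
    have : (1 : ℝ) ≤ x := by linarith
    exact_mod_cast this
  have hx1r : (1 : ℝ) ≤ x := by exact_mod_cast hx1
  have hx0 : (0 : ℝ) < x := by linarith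
  -- the application of the comparison theorem
  have hmain := fun (θ : ℝ) (hθ : |θ| ≤ 1) (l : ℝ) (hl0 : 0 < l) (hl1 : l ≤ 1) =>
    cf_main hEq hη P (fun p => p) (cen g) x W G (fun p hp => ⟨(hPm p hp).1.pos, (hPm p hp).2.1⟩) hx1 hW hPc
      (fun p hp p' hp' hne => (Nat.coprime_primes (hPm p hp).1 (hPm p' hp').1).2 hne)
      (fun p hp => hcW p (hPm p hp).1 (hPm p hp).2.2)
      (fun p hp c d hcd => by
        unfold cen
        rw [hgper p (hPm p hp).1 c d hcd]) (fun p n => cen_le hg p n) (fun p hp => av_cen g (hPm p hp).1)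
      hG hG0 hG1 m (by
        have h1 : (W : ℝ) ≤ x := by linarith
        calc (W : ℝ) * (x : ℝ) ^ (2 * m) ≤ x * (x : ℝ) ^ (2 * m) := mul_le_mul_of_nonneg_right h1 (by positivity)
          _ = (x : ℝ) ^ (2 * m + 1) := by ring
          _ ≤ (x : ℝ) ^ (4 * m + 1) := pow_le_pow_right₀ hx1r (by omega)) θ l hθ hl0 hl1
  have hsq : ∑ i ∈ P, av i (fun t => cen g i t ^ 2) = V' / 4 := by
    rw [hV', sum_div]
    exact sum_congr rfl fun p hp => av_cen_sq g (hPm p hp).1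
  rw [hsq] at hmain
  obtain ⟨s, hs⟩ : ∃ s : ℝ, s = (S.card : ℝ) := ⟨_, rfl⟩
  obtain ⟨f, hf⟩ : ∃ f : ℝ, f = (F.card : ℝ) := ⟨_, rfl⟩
  obtain ⟨gb, hgb⟩ : ∃ gb : ℝ, gb = av W G := ⟨_, rfl⟩
  have hs0 : 0 ≤ s := by rw [hs]; positivity
  have hf0 : 0 < f := by rw [hf]; exact_mod_cast hFne.card_pos
  have hfs : f ≤ s := by rw [hf, hs]; exact_mod_cast card_le_card hFS
  rw [← hs, ← hf] at hSF
  rw [← hs] at hGF
  rw [← hs, ← hgb] at hmain
  have hgb0 : 0 ≤ gb := by rw [hgb]; exact av_nonneg hG0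
  have hgb1 : gb ≤ 1 := by
    rw [hgb, ← av_one (ι := ι) hW]
    exact av_mono hG1
  -- the first error term
  have hE0 : 2 * W * η * ((2 * m + 1) * ((P.card : ℝ) * x) ^ (2 * m)) ≤ τ / 32 := by
    have h1 : ((P.card : ℝ) * x) ^ (2 * m) ≤ (x : ℝ) ^ (4 * m) := by
      have h2 : (P.card : ℝ) * x ≤ (x : ℝ) ^ 2 := by
        have : (P.card : ℝ) ≤ x := by exact_mod_cast hPx
        nlinarith
      calc ((P.card : ℝ) * x) ^ (2 * m) ≤ ((x : ℝ) ^ 2) ^ (2 * m) := pow_le_pow_left₀ (by positivity) h2 _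
        _ = (x : ℝ) ^ (4 * m) := by rw [← pow_mul]; congr 1; ring
    have h3 : η * (x : ℝ) ^ (4 * m) ≤ 4 / x := by
      rw [le_div_iff₀ hx0]
      calc η * (x : ℝ) ^ (4 * m) * x = η * (x : ℝ) ^ (4 * m + 1) := by ring
        _ ≤ 4 := hηx
    have h4 : 256 * W * (2 * m + 1) / τ ≤ x := by linarith
    have h5 : 8 * W * (2 * m + 1) / x ≤ τ / 32 := by
      rw [div_le_iff₀ hτ] at h4
      rw [div_le_iff₀ hx0]
      linarith
    calc 2 * W * η * ((2 * m + 1) * ((P.card : ℝ) * x) ^ (2 * m)) ≤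
        2 * W * η * ((2 * m + 1) * (x : ℝ) ^ (4 * m)) := by gcongr
      _ = 2 * W * (2 * m + 1) * (η * (x : ℝ) ^ (4 * m)) := by ring
      _ ≤ 2 * W * (2 * m + 1) * (4 / x) := by gcongr
      _ = 8 * W * (2 * m + 1) / x := by ring
      _ ≤ _ := h5
  -- the size of the family
  have hsum0 : |∑ n ∈ S, G (v n) - s * gb| ≤ s * (τ / 32) := by
    have h1 := hmain 0 (by simp) 1 one_pos le_rfl
    have e1 : ∑ n ∈ S, (G (v n) : ℂ) * Complex.exp (Complex.I * ((0 * ∑ i ∈ P, cen g i (v n) : ℝ) : ℂ)) -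
        ((s * (gb * Real.exp (-(0 ^ 2 / 2 * (V' / 4)))) : ℝ) : ℂ) = ((∑ n ∈ S, G (v n) - s * gb : ℝ) : ℂ) := by
      simp
    rw [e1, Complex.norm_real, Real.norm_eq_abs] at h1
    refine h1.trans (mul_le_mul_of_nonneg_left ?_ hs0)
    have e2 : (|(0 : ℝ)| / 1) ^ (2 * m) = 0 := by
      rw [abs_zero, zero_div, zero_pow (by omega)]
    have e3 : |(0 : ℝ)| ^ 3 = 0 := by simp
    rw [e2, e3, zero_mul, zero_mul, mul_zero, add_zero, add_zero]
    exact hE0
  have hindS : ∀ n ∈ S, (F : Set Ω).indicator (fun _ => (1 : ℝ)) n = if n ∈ F then 1 else 0 := by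
    intro n _
    rw [Set.indicator_apply]
    simp only [mem_coe]
  have hsumF : |∑ n ∈ S, G (v n) - f| ≤ τ / 16 * s := by
    have e1 : f = ∑ n ∈ S, (F : Set Ω).indicator (fun _ => (1 : ℝ)) n := by
      rw [sum_congr rfl hindS, ← sum_filter, sum_const, nsmul_eq_mul, mul_one, hf]
      congr 2
      ext n
      rw [mem_filter]
      exact ⟨fun h => ⟨hFS h, h⟩, fun h => h.2⟩
    rw [e1, ← sum_sub_distrib]
    exact (abs_sum_le_sum_abs _ _).trans hGF
  have hsf : |s * gb - f| ≤ s * (τ / 32) + τ / 16 * s := by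
    have e : s * gb - f = -(∑ n ∈ S, G (v n) - s * gb) + (∑ n ∈ S, G (v n) - f) := by ring
    rw [e]
    refine (abs_add_le _ _).trans ?_
    rw [abs_neg]
    exact add_le_add hsum0 hsumF
  -- the characteristic function
  obtain ⟨X, hX⟩ : ∃ X : Ω → ℝ, X = fun n => (∑ p ∈ prs x, g p (v n) - Mn) / √V := ⟨_, rfl⟩
  have hcf : ∀ u : ℝ, |u| ≤ U → ‖∑ n ∈ F, Complex.exp (Complex.I * ((u * X n : ℝ) : ℂ)) -
        ((F.card * Real.exp (-(u ^ 2 / 2)) : ℝ) : ℂ)‖ ≤ τ * F.card := by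
    intro u hu
    rw [← hf]
    obtain ⟨θ, hθ⟩ : ∃ θ, θ = 2 * u / √V := ⟨_, rfl⟩
    obtain ⟨l, hl⟩ : ∃ l, l = 4 * U / √V := ⟨_, rfl⟩
    have hθa : |θ| ≤ 2 * U / √V := by
      rw [hθ, abs_div, abs_mul, abs_of_pos hsV0, abs_of_pos (by norm_num : (0 : ℝ) < 2)]
      gcongr
    have hc1 : 4 * U ≤ √V := by
      have : 0 ≤ 64 * U ^ 3 / τ + 64 * U * z / τ := by positivity
      linarith
    have hl0 : 0 < l := by rw [hl]; positivity
    have hl1 : l ≤ 1 := by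
      rw [hl, div_le_one hsV0]
      exact hc1
    have hθl : |θ| ≤ l / 2 := by
      rw [hl]
      calc |θ| ≤ 2 * U / √V := hθa
        _ = 4 * U / √V / 2 := by ring
    have hθ1 : |θ| ≤ 1 := by linarith
    have h1 := hmain θ hθ1 l hl0 hl1
    have hE1 : 4 * ((|θ| / l) ^ (2 * m) * Real.exp (l ^ 2 * (V' / 4))) ≤ τ / 32 := by
      refine le_trans ?_ hm2
      have h2 : (|θ| / l) ^ (2 * m) ≤ (1 / 4 : ℝ) ^ m := by
        have h3 : |θ| / l ≤ 1 / 2 := by
          rw [div_le_iff₀ hl0]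
          linarith
        calc (|θ| / l) ^ (2 * m) ≤ (1 / 2 : ℝ) ^ (2 * m) := pow_le_pow_left₀ (by positivity) h3 _
          _ = (1 / 4 : ℝ) ^ m := by rw [pow_mul]; norm_num
      have h4 : Real.exp (l ^ 2 * (V' / 4)) ≤ Real.exp (4 * U ^ 2) := by
        apply Real.exp_le_exp.2
        have h5 : l ^ 2 * V = 16 * U ^ 2 := by
          rw [hl, div_pow, Real.sq_sqrt hV0.le]
          field_simp
          ring
        have h6 : l ^ 2 * V' ≤ l ^ 2 * V := mul_le_mul_of_nonneg_left hVV1 (sq_nonneg _)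
        linarith
      gcongr
    have hE2 : |θ| ^ 3 * (V' / 4) ≤ τ / 32 := by
      have h2 : 2 * U ^ 3 / √V ≤ τ / 32 := by
        rw [div_le_iff₀ hsV0]
        have h3 : 64 * U ^ 3 / τ ≤ √V := by
          have : 0 ≤ 4 * U + 64 * U * z / τ := by positivity
          linarith
        rw [div_le_iff₀ hτ] at h3
        linarith
      refine le_trans ?_ h2
      calc |θ| ^ 3 * (V' / 4) ≤ (2 * U / √V) ^ 3 * (V / 4) := by gcongr
        _ = 2 * U ^ 3 * (V / (√V * √V)) / √V := by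
            field_simp
            ring
        _ = 2 * U ^ 3 / √V := by rw [hss, div_self hV0.ne', mul_one]
    obtain ⟨y', hy'⟩ : ∃ y', y' = Real.exp (-(θ ^ 2 / 2 * (V' / 4))) := ⟨_, rfl⟩
    obtain ⟨y, hy⟩ : ∃ y, y = Real.exp (-(u ^ 2 / 2)) := ⟨_, rfl⟩
    rw [← hy'] at h1
    rw [← hy]
    have h2 : ‖∑ n ∈ S, (G (v n) : ℂ) * Complex.exp (Complex.I * ((θ * ∑ i ∈ P, cen g i (v n) : ℝ) : ℂ)) -
        ((s * (gb * y') : ℝ) : ℂ)‖ ≤ s * (3 * τ / 32) := by
      refine h1.trans (mul_le_mul_of_nonneg_left ?_ hs0)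
      linarith
    -- the exponent
    have hyy : |y' - y| ≤ τ / 32 := by
      have e1 : θ ^ 2 / 2 * (V' / 4) = u ^ 2 / 2 * (V' / V) := by
        rw [hθ, div_pow, Real.sq_sqrt hV0.le]
        field_simp
        ring
      have h3 : |y' - y| ≤ |u ^ 2 / 2 * (V' / V) - u ^ 2 / 2| := by
        rw [hy', hy, e1]
        have h4 : V' / V ≤ 1 := (div_le_one hV0).2 hVV1
        have h5 : 0 ≤ V' / V := by positivity
        have h6 : u ^ 2 / 2 * (V' / V) ≤ u ^ 2 / 2 := mul_le_of_le_one_right (by positivity) h4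
        have h7 : Real.exp (-(u ^ 2 / 2)) ≤ Real.exp (-(u ^ 2 / 2 * (V' / V))) := Real.exp_le_exp.2 (by linarith)
        rw [abs_of_nonneg (by linarith), abs_of_nonpos (by linarith)]
        have h8 := Real.add_one_le_exp (-(u ^ 2 / 2 - u ^ 2 / 2 * (V' / V)))
        have h9 : Real.exp (-(u ^ 2 / 2)) = Real.exp (-(u ^ 2 / 2 * (V' / V))) *
            Real.exp (-(u ^ 2 / 2 - u ^ 2 / 2 * (V' / V))) := by
          rw [← Real.exp_add]
          congr 1
          ring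
        have h10 : Real.exp (-(u ^ 2 / 2 * (V' / V))) ≤ 1 := by
          apply Real.exp_le_one_iff.2
          have : 0 ≤ u ^ 2 / 2 * (V' / V) := by positivity
          linarith
        have h11 := Real.exp_pos (-(u ^ 2 / 2 * (V' / V)))
        rw [h9]
        nlinarith
      refine h3.trans ?_
      have e2 : u ^ 2 / 2 * (V' / V) - u ^ 2 / 2 = -(u ^ 2 / 2 * ((V - V') / V)) := by
        field_simp
        ring
      rw [e2, abs_neg, abs_of_nonneg (mul_nonneg (by positivity) (div_nonneg (by linarith) hV0.le))]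
      have hu2 : u ^ 2 ≤ U ^ 2 := by
        rw [← sq_abs]
        exact pow_le_pow_left₀ (abs_nonneg _) hu 2
      calc u ^ 2 / 2 * ((V - V') / V) ≤ U ^ 2 / 2 * (z / V) := by
            apply mul_le_mul (by linarith) _ (div_nonneg (by linarith) hV0.le) (by positivity)
            gcongr
            linarith
        _ ≤ τ / 32 := by
            have h4 : 16 * U ^ 2 * z / τ ≤ V := by linarith
            rw [div_le_iff₀ hτ] at h4
            rw [div_mul_div_comm, div_le_iff₀ (by positivity)]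
            linarith
    -- exchange of the sums
    have hswap : ∀ n ∈ F, ‖Complex.exp (Complex.I * ((u * X n : ℝ) : ℂ)) -
        Complex.exp (Complex.I * ((θ * ∑ i ∈ P, cen g i (v n) : ℝ) : ℂ))‖ ≤ τ / 32 := by
      intro n _
      refine (exp_lip _ _).trans ?_
      have e1 : u * X n - θ * ∑ i ∈ P, cen g i (v n) =
          u / √V * ∑ p ∈ (prs x).filter (fun p => ¬ z < p), (g p (v n) - av p (g p)) := by
        rw [hX]
        simp only
        have e2 : ∑ p ∈ prs x, g p (v n) - Mn = ∑ p ∈ prs x, (g p (v n) - av p (g p)) := by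
          rw [hMn, sum_sub_distrib]
        have e3 : ∑ i ∈ P, cen g i (v n) = (∑ i ∈ P, (g i (v n) - av i (g i))) / 2 := by
          rw [sum_div]
          refine sum_congr rfl fun p hp => ?_
          unfold cen
          rw [if_pos (hPm p hp).1]
        rw [e2, e3, hsplit, hθ]
        ring
      rw [e1, abs_mul, abs_div, abs_of_pos hsV0]
      have h3 : |∑ p ∈ (prs x).filter (fun p => ¬ z < p), (g p (v n) - av p (g p))| ≤ 2 * z := by
        refine (abs_sum_le_sum_abs _ _).trans ?_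
        have h4 : ∑ p ∈ (prs x).filter (fun p => ¬ z < p), |g p (v n) - av p (g p)| ≤
            ∑ p ∈ (prs x).filter (fun p => ¬ z < p), (2 : ℝ) := by
          refine sum_le_sum fun p hp => ?_
          have h5 := abs_le.1 (hg p (v n))
          have h6 := abs_le.1 (av_abs_le (hprs p (mem_filter.1 hp).1).1.pos (hg p))
          rw [abs_le]
          constructor <;> linarith [h5.1, h5.2, h6.1, h6.2]
        rw [sum_const, nsmul_eq_mul] at h4
        linarith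
      calc |u| / √V * |∑ p ∈ (prs x).filter (fun p => ¬ z < p), (g p (v n) - av p (g p))| ≤ U / √V * (2 * z) := by
            gcongr
        _ = 2 * U * z / √V := by ring
        _ ≤ τ / 32 := by
            rw [div_le_iff₀ hsV0]
            have h3 : 64 * U * z / τ ≤ √V := by
              have : 0 ≤ 4 * U + 64 * U ^ 3 / τ := by positivity
              linarith
            rw [div_le_iff₀ hτ] at h3
            linarith
    obtain ⟨Y, hY⟩ : ∃ Y : Ω → ℂ, Y = fun n => Complex.exp (Complex.I * ((θ * ∑ i ∈ P, cen g i (v n) : ℝ) : ℂ)) :=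
      ⟨_, rfl⟩
    have hYn : ∀ n, ‖Y n‖ = 1 := by
      intro n
      rw [hY]
      simp only
      rw [mul_comm, Complex.norm_exp_ofReal_mul_I]
    have k1 : ‖∑ n ∈ F, Complex.exp (Complex.I * ((u * X n : ℝ) : ℂ)) - ∑ n ∈ F, Y n‖ ≤ f * (τ / 32) := by
      rw [← sum_sub_distrib]
      refine (norm_sum_le _ _).trans ?_
      have h3 := sum_le_sum hswap
      rw [sum_const, nsmul_eq_mul, ← hf] at h3
      rw [hY]
      exact h3
    have k2 : ‖∑ n ∈ F, Y n - ∑ n ∈ S, (G (v n) : ℂ) * Y n‖ ≤ τ / 16 * s := by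
      have e1 : ∑ n ∈ F, Y n = ∑ n ∈ S, (((F : Set Ω).indicator (fun _ => (1 : ℝ)) n : ℝ) : ℂ) * Y n := by
        have e2 : ∀ n ∈ S, (((F : Set Ω).indicator (fun _ => (1 : ℝ)) n : ℝ) : ℂ) * Y n = if n ∈ F then Y n else 0 := by
          intro n hn
          rw [hindS n hn]
          split_ifs <;> simp
        rw [sum_congr rfl e2, ← sum_filter]
        apply sum_congr _ fun _ _ => rfl
        ext n
        rw [mem_filter]
        exact ⟨fun h => ⟨hFS h, h⟩, fun h => h.2⟩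
      rw [e1, ← sum_sub_distrib]
      refine (norm_sum_le _ _).trans (le_trans (le_of_eq ?_) hGF)
      refine sum_congr rfl fun n _ => ?_
      rw [← sub_mul, norm_mul, hYn, mul_one, ← Complex.ofReal_sub, Complex.norm_real, Real.norm_eq_abs, abs_sub_comm]
    have k3 : ‖∑ n ∈ S, (G (v n) : ℂ) * Y n - ((s * (gb * y') : ℝ) : ℂ)‖ ≤ s * (3 * τ / 32) := by
      rw [hY]
      exact h2
    have hy1 : |y'| ≤ 1 := by
      rw [hy', abs_of_pos (Real.exp_pos _)]
      apply Real.exp_le_one_iff.2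
      have : 0 ≤ θ ^ 2 / 2 * (V' / 4) := by positivity
      linarith
    have k4 : ‖((s * (gb * y') : ℝ) : ℂ) - ((f * y : ℝ) : ℂ)‖ ≤ (s * (τ / 32) + τ / 16 * s) + f * (τ / 32) := by
      rw [← Complex.ofReal_sub, Complex.norm_real, Real.norm_eq_abs]
      have e : s * (gb * y') - f * y = (s * gb - f) * y' + f * (y' - y) := by ring
      rw [e]
      refine (abs_add_le _ _).trans ?_
      rw [abs_mul, abs_mul, abs_of_pos hf0]
      have h3 : |s * gb - f| * |y'| ≤ |s * gb - f| * 1 := mul_le_mul_of_nonneg_left hy1 (abs_nonneg _)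
      have h4 : f * |y' - y| ≤ f * (τ / 32) := mul_le_mul_of_nonneg_left hyy hf0.le
      linarith
    have e9 : ∑ n ∈ F, Complex.exp (Complex.I * ((u * X n : ℝ) : ℂ)) - ((f * y : ℝ) : ℂ) =
        (∑ n ∈ F, Complex.exp (Complex.I * ((u * X n : ℝ) : ℂ)) - ∑ n ∈ F, Y n) +
        ((∑ n ∈ F, Y n - ∑ n ∈ S, (G (v n) : ℂ) * Y n) + ((∑ n ∈ S, (G (v n) : ℂ) * Y n - ((s * (gb * y') : ℝ) : ℂ)) +
          (((s * (gb * y') : ℝ) : ℂ) - ((f * y : ℝ) : ℂ)))) := by ring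
    rw [e9]
    have n1 := norm_add_le (∑ n ∈ F, Complex.exp (Complex.I * ((u * X n : ℝ) : ℂ)) - ∑ n ∈ F, Y n)
      ((∑ n ∈ F, Y n - ∑ n ∈ S, (G (v n) : ℂ) * Y n) + ((∑ n ∈ S, (G (v n) : ℂ) * Y n - ((s * (gb * y') : ℝ) : ℂ)) +
          (((s * (gb * y') : ℝ) : ℂ) - ((f * y : ℝ) : ℂ))))
    have n2 := norm_add_le (∑ n ∈ F, Y n - ∑ n ∈ S, (G (v n) : ℂ) * Y n)
      ((∑ n ∈ S, (G (v n) : ℂ) * Y n - ((s * (gb * y') : ℝ) : ℂ)) +
          (((s * (gb * y') : ℝ) : ℂ) - ((f * y : ℝ) : ℂ)))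
    have n3 := norm_add_le (∑ n ∈ S, (G (v n) : ℂ) * Y n - ((s * (gb * y') : ℝ) : ℂ))
      (((s * (gb * y') : ℝ) : ℂ) - ((f * y : ℝ) : ℂ))
    have h20 : s * τ ≤ 2 * f * τ := mul_le_mul_of_nonneg_right hSF hτ.le
    have h21 : 0 ≤ f * τ := by positivity
    linarith
  have hfin := hclt Ω F X hFne hcf
  intro t
  have h1 := hfin t
  have e1 : F.filter (fun n => X n ≤ t) = F.filter (fun n => ∑ p ∈ prs x, g p (v n) - Mn ≤ t * √V) := by
    apply filter_congr
    intro n _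
    rw [hX]
    simp only
    rw [div_le_iff₀ hsV0]
  rw [e1] at h1
  exact h1

end Pool.Agent.L0h41.CL
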